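import Pool.Agent.H65R4.MixB
import Pool.Agent.H65R4.Scale
import Pool.Agent.H65R4.Meas

/-!
ZFC proves that some universally null subset of `2^ℕ` is not countably perfectly null. Hence
`PN_σ = UN` (for subsets of the Cantor space) is not consistent with ZFC.
-/

set_option autoImplicit false

open Set Filter Topology Cardinal MeasureTheory

namespace Pool.Agent.Results.MP_4d4d44_lc.UniversallyNullNotPNSigma

open Pool.Agent.H65R4

/-- An `F_σ` set: a union of countably many closed sets. -/
def IsFSigma {X : Type} [TopologicalSpace X] (F : Set X) : Prop :=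
  ∃ C : ℕ → Set X, (∀ n, IsClosed (C n)) ∧ F = ⋃ n, C n

/-- `μ` is a finite non-atomic measure: `μ X < ∞` and `μ {x} = 0` for every `x`. -/
def FiniteNonAtomic {X : Type} [MeasurableSpace X] (μ : Measure X) : Prop :=
  μ univ < ⊤ ∧ ∀ x, μ {x} = 0

/-- `A` is universally null: `A` has outer `μ`-measure `0` for every finite non-atomic Borel
measure `μ` (Mathlib's `μ A` is the outer measure for an arbitrary set `A`). -/
def UniversallyNull {X : Type} [MeasurableSpace X] (A : Set X) : Prop :=
  ∀ μ : Measure X, FiniteNonAtomic μ → μ A = 0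

/-- `A` is countably perfectly null: for every finite non-atomic Borel measure `μ` there is an
`F_σ` set `F ⊇ A` with `μ F = 0`. -/
def CountablyPerfectlyNull {X : Type} [TopologicalSpace X] [MeasurableSpace X] (A : Set X) : Prop :=
  ∀ μ : Measure X, FiniteNonAtomic μ → ∃ F : Set X, IsFSigma F ∧ A ⊆ F ∧ μ F = 0

/-- the auxiliary copy of the Cantor space -/
abbrev XX : Type := (ℕ → ℕ → Bool) × (ℕ → Bool)

/-- the homeomorphism of the auxiliary copy with the Cantor space -/
def Φ : XX ≃ₜ (ℕ → Bool) where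
  toFun p n := if n % 2 = 0 then p.1 (Nat.unpair (n / 2)).1 (Nat.unpair (n / 2)).2 else p.2 (n / 2)
  invFun u := (fun i m => u (2 * Nat.pair i m), fun m => u (2 * m + 1))
  left_inv := by
    rintro ⟨w, z⟩
    refine Prod.ext ?_ ?_
    · funext i m
      simp
    · funext m
      have h1 : (2 * m + 1) % 2 = 1 := by omega
      have h2 : (2 * m + 1) / 2 = m := by omega
      simp [h1, h2]
  right_inv := by
    intro u
    funext n
    by_cases hn : n % 2 = 0
    · simp only [hn, if_true, Nat.pair_unpair]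
      congr 1
      omega
    · simp only [hn, if_false]
      congr 1
      omega
  continuous_toFun := by
    refine continuous_pi fun n => ?_
    by_cases hn : n % 2 = 0
    · simp only [hn, if_true]
      fun_prop
    · simp only [hn, if_false]
      fun_prop
  continuous_invFun := by fun_prop

theorem FiniteNonAtomic.map {X Y : Type} [MeasurableSpace X] [MeasurableSpace Y] {μ : Measure X}
    (h : FiniteNonAtomic μ) (f : X ≃ᵐ Y) : FiniteNonAtomic (μ.map f) := by
  refine ⟨?_, fun y => ?_⟩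
  · rw [f.map_apply]; exact h.1
  · rw [f.map_apply]
    have : f ⁻¹' {y} = {f.symm y} := by
      ext x
      simp only [mem_preimage, mem_singleton_iff]
      exact ⟨fun h => by rw [← h, f.symm_apply_apply], fun h => by rw [h, f.apply_symm_apply]⟩
    rw [this]
    exact h.2 _

/-- there is a finite nonzero non-atomic measure on the Cantor space -/
theorem exists_measure : ∃ ν : Measure (ℕ → Bool), FiniteNonAtomic ν ∧ ν univ ≠ 0 := by
  have hR : ¬ Countable ℝ := by
    rw [← Cardinal.mk_le_aleph0_iff, Cardinal.mk_real, not_le]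
    exact Cardinal.aleph0_lt_continuum
  let f : ℝ ≃ᵐ (ℕ → Bool) := PolishSpace.measurableEquivNatBoolOfNotCountable hR
  have h1 : FiniteNonAtomic (volume.restrict (Icc (0 : ℝ) 1)) := by
    refine ⟨?_, fun x => ?_⟩
    · simp
    · exact measure_singleton x
  refine ⟨_, h1.map f, ?_⟩
  rw [f.map_apply]
  simp

/-- **ZFC proves that there is a universally null subset of `2^ℕ` which is not countably perfectly
null.** -/
theorem result : ∃ A : Set (ℕ → Bool), UniversallyNull A ∧ ¬ CountablyPerfectlyNull A := by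
  classical
  -- the least size of a nonnull set
  let S : Set Cardinal.{0} := {κ | ∃ ν : Measure (ℕ → Bool), FiniteNonAtomic ν ∧
    ∃ T : Set (ℕ → Bool), ν T ≠ 0 ∧ #T = κ}
  have hSne : S.Nonempty := by
    obtain ⟨ν, h1, h2⟩ := exists_measure
    exact ⟨_, ν, h1, univ, h2, rfl⟩
  obtain ⟨ν, hν, T, hT, hTκ⟩ := csInf_mem hSne
  set κ : Cardinal.{0} := sInf S with hκ
  have hmin : ∀ ν : Measure (ℕ → Bool), FiniteNonAtomic ν → ∀ T' : Set (ℕ → Bool),
      #T' < κ → ν T' = 0 := by
    intro ν' hν' T' hT'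
    by_contra hcon
    exact absurd (csInf_le' (show #T' ∈ S from ⟨ν', hν', T', hcon, rfl⟩)) (not_le.2 hT')
  let φ : XX ≃ᵐ (ℕ → Bool) := Φ.toMeasurableEquiv
  have hmin2 : ∀ μ : Measure XX, FiniteNonAtomic μ → ∀ T' : Set XX, #T' < κ → μ T' = 0 := by
    intro μ hμ T' hT'
    have h1 := hmin _ (hμ.map φ) (φ '' T') (Cardinal.mk_image_le.trans_lt hT')
    rw [φ.map_apply, preimage_image_eq _ φ.injective] at h1
    exact h1
  have hcount : ∀ μ : Measure (ℕ → Bool), FiniteNonAtomic μ → ∀ C : Set (ℕ → Bool), C.Countable →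
      μ C = 0 := by
    intro μ hμ C hC
    have : C = ⋃ x ∈ C, {x} := by simp
    rw [this, measure_biUnion_null_iff hC]
    exact fun x _ => hμ.2 x
  have hℵ : ℵ₀ ≤ κ := by
    by_contra hcon
    push Not at hcon
    rw [← hTκ, Cardinal.lt_aleph0_iff_set_finite] at hcon
    exact hT (hcount ν hν T hcon.countable)
  haveI : IsFiniteMeasure ν := ⟨hν.1⟩
  -- indices
  let I : Type := κ.ord.ToType
  have hI : #I = κ := by simp [I]
  obtain ⟨e⟩ : Nonempty (I ≃ T) := Cardinal.eq.1 (hI.trans hTκ.symm)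
  have hIic : ∀ ξ : I, #(Iic ξ) < κ := by
    intro ξ
    have h1 : #(Iio ξ) < κ := by
      have := Cardinal.mk_Iio_lt ξ (by simp [I])
      rwa [hI] at this
    have h2 : (Iic ξ : Set I) = insert ξ (Iio ξ) := Iio_insert.symm
    rw [h2]
    refine (Cardinal.mk_insert_le).trans_lt ?_
    exact Cardinal.add_lt_of_lt hℵ h1 (Cardinal.one_lt_aleph0.trans_le hℵ)
  obtain ⟨N, hNm, hNs, hNu⟩ := exists_universal_null ν
  have hc : ∀ ξ : I, ∃ c : ℕ → Bool, ∀ η ≤ ξ, (c, (e η : ℕ → Bool)) ∈ N := by
    intro ξ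
    have h1 : ν ((fun η : I => (e η : ℕ → Bool)) '' Iic ξ) = 0 :=
      hmin ν hν _ (Cardinal.mk_image_le.trans_lt (hIic ξ))
    obtain ⟨c, hc⟩ := hNu _ h1
    exact ⟨c, fun η hη => hc _ ⟨η, hη, rfl⟩⟩
  choose c hc using hc
  obtain ⟨J, _, _, x, hmono, hlt, hunb⟩ := exists_scale
  -- the set
  let a : J × I → XX := fun p => (mixB (x p.1) (c p.2), (e p.2 : ℕ → Bool))
  have ha1 : ∀ p, decBX (a p).1 = x p.1 := fun p => decBX_mixB _ _
  have ha2 : ∀ p, decBC (a p).1 = c p.2 := fun p => decBC_mixB _ _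
  have hUN : UniversallyNull (range a) := by
    intro μ hμ
    haveI : IsFiniteMeasure μ := ⟨hμ.1⟩
    -- the part with bounded second index is null
    have hlev : ∀ (γ : I) (i : J), μ (a '' {p | p.1 = i ∧ p.2 ≤ γ}) = 0 := by
      intro γ i
      refine hmin2 μ hμ _ ?_
      have h1 : a '' {p | p.1 = i ∧ p.2 ≤ γ} ⊆ (fun j : I => a (i, j)) '' Iic γ := by
        rintro _ ⟨⟨i', j⟩, ⟨rfl, hj⟩, rfl⟩
        exact ⟨j, hj, rfl⟩
      exact (Cardinal.mk_le_mk_of_subset h1).trans_lt (Cardinal.mk_image_le.trans_lt (hIic γ))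
    have hGm : MeasurableSet {p : XX × XX | EvLt (decBX p.1.1) (decBX p.2.1)} := by
      have h1 : {p : XX × XX | EvLt (decBX p.1.1) (decBX p.2.1)} =
          ⋃ m : ℕ, ⋂ n : ℕ, {p : XX × XX | m ≤ n → decBX p.1.1 n < decBX p.2.1 n} := by
        ext p
        simp only [EvLt, eventually_atTop, mem_setOf_eq, mem_iUnion, mem_iInter, ge_iff_le]
      rw [h1]
      refine MeasurableSet.iUnion fun m => MeasurableSet.iInter fun n => ?_
      by_cases hmn : m ≤ n
      · have h2 : Measurable fun p : XX × XX => decBX p.1.1 n :=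
          (measurable_pi_apply n).comp (measurable_decBX.comp (measurable_fst.comp measurable_fst))
        have h3 : Measurable fun p : XX × XX => decBX p.2.1 n :=
          (measurable_pi_apply n).comp (measurable_decBX.comp (measurable_fst.comp measurable_snd))
        have h4 := measurableSet_lt h2 h3
        convert h4 using 1
        ext p
        simp [hmn]
      · convert MeasurableSet.univ using 1
        ext p
        simp [hmn]
    have hpart : ∀ (γ : I) (J₀ : Set J), (∀ i ∈ J₀, ∀ i' < i, i' ∈ J₀) →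
        (∀ i ∈ J₀, μ (a '' {p | p.1 < i ∧ p.2 ≤ γ}) = 0) → μ (a '' {p | p.1 ∈ J₀ ∧ p.2 ≤ γ}) = 0 := by
      intro γ J₀ _ hJ₀
      refine rank_null μ _ hGm ?_ ?_
      · rintro _ ⟨⟨i', j'⟩, ⟨hi', hj'⟩, rfl⟩
        refine measure_mono_null ?_ (hJ₀ i' hi')
        rintro _ ⟨⟨⟨i, j⟩, ⟨hi, hj⟩, rfl⟩, hG⟩
        have hG' : EvLt (decBX (a (i, j)).1) (decBX (a (i', j')).1) := hG
        rw [ha1, ha1] at hG'
        refine ⟨(i, j), ⟨?_, hj⟩, rfl⟩
        by_contra hcon
        rcases (not_lt.1 hcon).lt_or_eq with h | h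
        · exact (hG'.trans (hlt _ _ h)).irrefl
        · simp only at h
          subst h
          exact hG'.irrefl
      · rintro _ ⟨⟨i, j⟩, ⟨hi, hj⟩, rfl⟩
        refine measure_mono_null ?_ (measure_union_null (hJ₀ i hi) (hlev γ i))
        rintro _ ⟨⟨⟨i', j'⟩, ⟨hi', hj'⟩, rfl⟩, hG⟩
        have hG' : ¬ EvLt (decBX (a (i, j)).1) (decBX (a (i', j')).1) := hG
        rw [ha1, ha1] at hG'
        by_cases h : i' < i
        · exact Or.inl ⟨(i', j'), ⟨h, hj'⟩, rfl⟩
        · right
          have h' : i' = i := by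
            rcases (not_lt.1 h).lt_or_eq with h2 | h2
            · exact absurd (hlt _ _ h2) hG'
            · exact h2.symm
          exact ⟨(i', j'), ⟨h', hj'⟩, rfl⟩
    have hinit : ∀ (γ : I) (i : J), μ (a '' {p | p.1 < i ∧ p.2 ≤ γ}) = 0 := by
      intro γ i
      induction i using WellFoundedLT.induction with
      | _ i ih =>
        exact hpart γ (Iio i) (fun i1 h1 i2 h2 => h2.trans h1) fun i1 h1 => ih i1 h1
    have hall : ∀ γ : I, μ (a '' {p | p.2 ≤ γ}) = 0 := by
      intro γ
      have := hpart γ univ (fun _ _ _ _ => mem_univ _) fun i _ => hinit γ i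
      simpa using this
    -- Fubini
    let B : Set (XX × (ℕ → Bool)) := {p | (decBC p.1.1, p.2) ∈ N}
    have hBm : MeasurableSet B :=
      hNm.preimage ((measurable_decBC.comp (measurable_fst.comp measurable_fst)).prodMk measurable_snd)
    have hB0 : (μ.prod ν) B = 0 := by
      rw [Measure.measure_prod_null hBm]
      exact Eventually.of_forall fun z => hNs (decBC z.1)
    have hB1 : ∀ᵐ y ∂ν, μ {z | (z, y) ∈ B} = 0 := by
      have h1 : (ν.prod μ) (Prod.swap ⁻¹' B) = 0 := by
        rw [← Measure.map_apply measurable_swap hBm, Measure.prod_swap]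
        exact hB0
      rw [Measure.measure_prod_null (measurable_swap hBm)] at h1
      exact h1
    obtain ⟨γ, hγ⟩ : ∃ γ : I, μ {z | (z, (e γ : ℕ → Bool)) ∈ B} = 0 := by
      by_contra hcon
      push Not at hcon
      refine hT (measure_mono_null ?_ hB1)
      intro y hy hy'
      have := hcon (e.symm ⟨y, hy⟩)
      rw [Equiv.apply_symm_apply] at this
      exact this hy'
    refine measure_mono_null ?_ (measure_union_null hγ (hall γ))
    rintro _ ⟨p, rfl⟩
    by_cases hp : p.2 ≤ γ
    · exact Or.inr ⟨p, hp, rfl⟩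
    · left
      show (decBC (a p).1, (e γ : ℕ → Bool)) ∈ N
      rw [ha2]
      exact hc _ _ (not_le.1 hp).le
  refine ⟨Φ '' range a, ?_, ?_⟩
  · intro μ hμ
    have h1 := hUN _ (hμ.map φ.symm)
    rw [φ.symm.map_apply] at h1
    have h2 : φ.symm ⁻¹' (range a) = Φ '' range a := by
      ext u
      constructor
      · intro hu
        exact ⟨φ.symm u, hu, φ.apply_symm_apply u⟩
      · rintro ⟨z, hz, rfl⟩
        show φ.symm (φ z) ∈ range a
        rw [φ.symm_apply_apply]
        exact hz
    rwa [h2] at h1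
  · intro hPN
    obtain ⟨q, hq⟩ := exists_surjective_nat (Σ n : ℕ, (Fin n → ℕ))
    let ι : ℕ → (ℕ → Bool) → XX := fun n z => (dsqB (q n), z)
    have hι : ∀ n, Measurable (ι n) := fun n => measurable_const.prodMk measurable_id
    let μ₀ : Measure XX := Measure.sum fun n => (2⁻¹ : ENNReal) ^ (n + 1) • ν.map (ι n)
    have hμ₀ : FiniteNonAtomic μ₀ := by
      refine ⟨?_, fun z => ?_⟩
      · rw [Measure.sum_apply _ MeasurableSet.univ]
        have h1 : ∀ n, ((2⁻¹ : ENNReal) ^ (n + 1) • ν.map (ι n)) univ =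
            (2⁻¹ : ENNReal) ^ (n + 1) * ν univ := by
          intro n
          rw [Measure.smul_apply, Measure.map_apply (hι n) MeasurableSet.univ, preimage_univ, smul_eq_mul]
        simp only [h1]
        rw [ENNReal.tsum_mul_right]
        refine ENNReal.mul_lt_top ?_ hν.1
        have h2 : ∑' n : ℕ, (2⁻¹ : ENNReal) ^ (n + 1) ≤ ∑' n : ℕ, (2⁻¹ : ENNReal) ^ n :=
          ENNReal.tsum_le_tsum fun n => by
            rw [pow_succ]
            exact mul_le_of_le_one_right zero_le (by norm_num)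
        refine h2.trans_lt ?_
        rw [ENNReal.tsum_geometric]
        simp
      · rw [Measure.sum_apply _ (measurableSet_singleton z)]
        rw [ENNReal.tsum_eq_zero]
        intro n
        rw [Measure.smul_apply, Measure.map_apply (hι n) (measurableSet_singleton z), smul_eq_mul]
        have h1 : ν (ι n ⁻¹' {z}) = 0 := by
          refine measure_mono_null ?_ (hν.2 z.2)
          intro y hy
          have : ι n y = z := hy
          rw [← this]
          rfl
        rw [h1, mul_zero]
    obtain ⟨F, ⟨C, hC, rfl⟩, hAF, hF⟩ := hPN _ (hμ₀.map φ)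
    rw [φ.map_apply] at hF
    have hCφ : ∀ k, IsClosed (Φ ⁻¹' (C k)) := fun k => (hC k).preimage Φ.continuous
    have hF' : μ₀ (⋃ k, Φ ⁻¹' (C k)) = 0 := by
      rw [← preimage_iUnion]
      exact hF
    have hm : MeasurableSet (⋃ k, Φ ⁻¹' (C k)) := MeasurableSet.iUnion fun k => (hCφ k).measurableSet
    have hsec : ∀ n, ν {y | (dsqB (q n), y) ∈ ⋃ k, Φ ⁻¹' (C k)} = 0 := by
      intro n
      rw [Measure.sum_apply _ hm, ENNReal.tsum_eq_zero] at hF'
      have h1 := hF' n
      rw [Measure.smul_apply, Measure.map_apply (hι n) hm, smul_eq_mul, mul_eq_zero] at h1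
      rcases h1 with h1 | h1
      · exact absurd h1 (by simp)
      · exact h1
    refine hT (measure_mono_null ?_ (measure_iUnion_null hsec))
    intro y hy
    by_contra hyn
    simp only [mem_iUnion, mem_setOf_eq, not_exists] at hyn
    obtain ⟨j, hj⟩ := e.surjective ⟨y, hy⟩
    have hb : ∀ k, ∃ g : ℕ → ℕ, ∀ x : ℕ → ℕ, Monotone x → ∀ c, mixB x c ∈ {w | (w, y) ∈ Φ ⁻¹' (C k)} →
        ∀ n, x n ≤ g n := by
      intro k
      refine mixB_bound ((hCφ k).preimage (by fun_prop : Continuous fun w : ℕ → ℕ → Bool => (w, y))) ?_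
      intro p hp
      obtain ⟨n, rfl⟩ := hq p
      exact hyn n k hp
    choose g hg using hb
    obtain ⟨i, hi⟩ := hunb g
    have h1 : Φ (a (i, j)) ∈ ⋃ k, C k := hAF ⟨a (i, j), ⟨(i, j), rfl⟩, rfl⟩
    obtain ⟨k, hk⟩ := mem_iUnion.1 h1
    refine hi k fun n => hg k (x i) (hmono i) (c j) ?_ n
    have hej : (e j : ℕ → Bool) = y := by rw [hj]
    have h2 : a (i, j) = (mixB (x i) (c j), (e j : ℕ → Bool)) := rfl
    show (mixB (x i) (c j), y) ∈ Φ ⁻¹' (C k)
    rw [← hej, ← h2]
    exact hk

end Pool.Agent.Results.MP_4d4d44_lc.UniversallyNullNotPNSigma
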